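import Mathlib
import Pool.Agent.MP_e86a57_co.Mg.Main

namespace Pool.Agent.Results.MP_e86a57_co.LimitSet

/-- The set of limits of `|Aut L| / |End L|` along finite lattices of size tending to infinity
is the whole unit interval. -/
theorem result :
    {x : ℝ | ∃ (L : ℕ → Type) (_ : ∀ k, Lattice (L k)) (_ : ∀ k, BoundedOrder (L k))
      (_ : ∀ k, Finite (L k)),
      Filter.Tendsto (fun k => Nat.card (L k)) Filter.atTop Filter.atTop ∧
      Filter.Tendsto (fun k =>
        (Nat.card {f : BoundedLatticeHom (L k) (L k) // Function.Bijective f} : ℝ) /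
          (Nat.card (BoundedLatticeHom (L k) (L k)) : ℝ)) Filter.atTop (nhds x)}
      = Set.Icc 0 1 := by
  ext x
  constructor
  · rintro ⟨L, _, _, _, -, h⟩
    exact isClosed_Icc.mem_of_tendsto h
      (Filter.Eventually.of_forall fun k => Pool.Agent.MP_e86a57_co.ratio_mem)
  · rintro ⟨h0, h1⟩
    exact Pool.Agent.MP_e86a57_co.main x h0 h1

end Pool.Agent.Results.MP_e86a57_co.LimitSet
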